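import Mathlib

set_option autoImplicit false

namespace Pool.Agent.Results.MP_939d63_gt.Wreath

open Set Metric Topology Filter OnePoint
open scoped commutatorElement

/-- Twice the signed area of the triangle `a b c`; positive when `a, b, c` are in counterclockwise
order. -/
def D (a b c : Circle) : ℝ :=
  ((b : ℂ) - a).re * ((c : ℂ) - a).im - ((b : ℂ) - a).im * ((c : ℂ) - a).re

/-- A lamination of the circle, as a symmetric set of ordered pairs. -/
def IsLamination (Λ : Set (Circle × Circle)) : Prop :=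
  Λ.Nonempty ∧ (∀ p ∈ Λ, p.1 ≠ p.2 ∧ p.swap ∈ Λ) ∧ (∀ p ∈ closure Λ, p.1 ≠ p.2 → p ∈ Λ) ∧
    ∀ p ∈ Λ, ∀ q ∈ Λ, 0 ≤ D p.1 p.2 q.1 * D p.1 p.2 q.2

/-- The open disc minus the leaves, in the Klein model. -/
def outside (Λ : Set (Circle × Circle)) : Set ℂ := ball 0 1 \ ⋃ p ∈ Λ, segment ℝ (p.1 : ℂ) p.2

/-- Every gap is a finite-sided ideal polygon. -/
def VeryFull (Λ : Set (Circle × Circle)) : Prop :=
  ∀ z ∈ outside Λ, ∃ s : Finset Circle, 3 ≤ s.card ∧
    closure (connectedComponentIn (outside Λ) z) = convexHull ℝ ((fun w : Circle => (w : ℂ)) '' s)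

lemma sq1 (z : Circle) : (z : ℂ).re ^ 2 + (z : ℂ).im ^ 2 = 1 := by
  have := z.normSq_coe
  rwa [Complex.normSq_apply, ← sq, ← sq] at this

def mk (z : ℂ) (h : z.re ^ 2 + z.im ^ 2 = 1) : Circle :=
  ⟨z, mem_sphere_zero_iff_norm.2 (by
    rw [← pow_eq_one_iff_of_nonneg (norm_nonneg _) two_ne_zero, Complex.sq_norm,
      Complex.normSq_apply, ← sq, ← sq, h])⟩

@[simp] lemma coe_mk (z : ℂ) (h : z.re ^ 2 + z.im ^ 2 = 1) : (mk z h : ℂ) = z := rfl

noncomputable def s (x : ℝ) : Circle :=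
  mk ⟨(x ^ 2 - 1) / (x ^ 2 + 1), 2 * x / (x ^ 2 + 1)⟩ (by field_simp; ring)

lemma re1 {z : Circle} (h : z ≠ 1) : 0 < 1 - (z : ℂ).re := by
  refine lt_of_le_of_ne (by nlinarith [sq1 z]) fun e => h (Circle.ext (Complex.ext ?_ ?_))
  · simp; linarith
  · simp; nlinarith [sq1 z]

lemma s1 (x : ℝ) : s x ≠ 1 := fun h => by
  have := congrArg (fun z : Circle => (z : ℂ).re) h
  simp only [s, coe_mk, Circle.coe_one, Complex.one_re] at this
  field_simp at this
  linarith

noncomputable def sH : ℝ ≃ₜ ({1}ᶜ : Set Circle) where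
  toFun x := ⟨s x, s1 x⟩
  invFun z := (z.1 : ℂ).im / (1 - (z.1 : ℂ).re)
  left_inv x := by
    simp only [s, coe_mk]
    field_simp
    ring
  right_inv z := by
    have h1 := (re1 z.2).ne'
    have h2 := sq1 z.1
    have h3 : ((z.1 : ℂ).im / (1 - (z.1 : ℂ).re)) ^ 2 + 1 = 2 / (1 - (z.1 : ℂ).re) := by
      field_simp
      linear_combination h2
    refine Subtype.ext (Circle.ext (Complex.ext ?_ ?_)) <;> simp only [s, coe_mk, h3] <;> field_simp
    linear_combination h2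
  continuous_toFun := by
    refine Continuous.subtype_mk (Continuous.subtype_mk ?_ _) _
    simp only [Complex.mk_eq_add_mul_I]
    fun_prop (disch := intros; positivity)
  continuous_invFun := Continuous.div (by fun_prop) (by fun_prop) fun z => (re1 z.2).ne'

noncomputable def σ : OnePoint ℝ ≃ₜ Circle :=
  equivOfIsEmbeddingOfRangeEq 1 s (IsEmbedding.subtypeVal.comp sH.isEmbedding) (by
    rw [show s = Subtype.val ∘ sH from rfl, sH.surjective.range_comp, Subtype.range_coe])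

noncomputable def Ψ : (ℝ ≃o ℝ) →* Circle ≃ₜ Circle :=
  .mk' (fun h => (σ.symm.trans h.toHomeomorph.onePointCongr).trans σ) fun g h => by
    ext1 z
    obtain ⟨x, rfl⟩ := σ.surjective z
    cases x <;> simp

lemma Ψ1 (h : ℝ ≃o ℝ) : Ψ h (σ ∞) = σ ∞ := by simp [Ψ]
lemma Ψ2 (h : ℝ ≃o ℝ) (x : ℝ) : Ψ h (σ x) = σ (h x : ℝ) := by simp [Ψ]

def δ : OnePoint ℝ → OnePoint ℝ → ℝ
  | ∞, ∞ => 0
  | ∞, .some _ => -1
  | .some _, ∞ => 1
  | .some x, .some y => y - x

def W : OnePoint ℝ → ℝ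
  | ∞ => 1
  | .some x => x ^ 2 + 1

lemma Dσ (a b c : OnePoint ℝ) : SignType.sign (D (σ a) (σ b) (σ c)) =
    -(SignType.sign (δ a b) * SignType.sign (δ a c) * SignType.sign (δ b c)) := by
  have h : ∀ a, 0 < W a := fun a => by cases a <;> simp only [W] <;> positivity
  have : D (σ a) (σ b) (σ c) = -(δ a b * δ a c * δ b c) * (4 / (W a * W b * W c)) := by
    cases a <;> cases b <;> cases c <;> simp [D, σ, s, δ, W] <;> field_simp <;> ring
  rw [this, sign_mul, sign_pos (div_pos four_pos (mul_pos (mul_pos (h a) (h b)) (h c)))]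
  simp [sign_mul, Left.sign_neg]

lemma ori (h : ℝ ≃o ℝ) (a b c : Circle) (H : 0 < D a b c) : 0 < D (Ψ h a) (Ψ h b) (Ψ h c) := by
  have k : ∀ a b, SignType.sign (δ (σ.symm (Ψ h (σ a))) (σ.symm (Ψ h (σ b)))) =
      SignType.sign (δ a b) := fun a b => by
    cases a <;> cases b <;> simp only [Ψ1, Ψ2, σ.symm_apply_apply, δ]
    rename_i x y
    rcases lt_trichotomy x y with e | rfl | e
    · rw [sign_pos (sub_pos.2 e), sign_pos (sub_pos.2 (h.strictMono e))]
    · simp
    · rw [sign_neg (sub_neg.2 e), sign_neg (sub_neg.2 (h.strictMono e))]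
  obtain ⟨a, rfl⟩ := σ.surjective a
  obtain ⟨b, rfl⟩ := σ.surjective b
  obtain ⟨c, rfl⟩ := σ.surjective c
  rw [← sign_eq_one_iff, Dσ, ← k a, ← k a, ← k b, ← Dσ] at H
  simpa [sign_eq_one_iff] using H

lemma fix {h : ℝ ≃o ℝ} (H : ∀ x ≤ 0, h x = x) {z : Circle} (hz : (z : ℂ).im ≤ 0) : Ψ h z = z := by
  obtain ⟨x, rfl⟩ := σ.surjective z
  cases x with
  | infty => exact Ψ1 h
  | coe x =>
    rw [Ψ2, H]
    change 2 * x / (x ^ 2 + 1) ≤ 0 at hz
    rw [div_le_iff₀ (by positivity)] at hz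
    linarith

def q : Circle := mk ⟨0, -1⟩ (by norm_num)
def r : Circle := mk ⟨-1, 0⟩ (by norm_num)

def C : Set (Circle × Circle) :=
  {p | p.1 = 1 ∧ (0 ≤ (p.2 : ℂ).re ∨ 0 ≤ (p.2 : ℂ).im)} ∪
    {p | p.1 = q ∧ (p.2 : ℂ).re ≤ 0 ∧ (p.2 : ℂ).im ≤ 0}

def Λ : Set (Circle × Circle) := {p | p.1 ≠ p.2 ∧ (p ∈ C ∨ p.swap ∈ C)}

lemma q1 : (1 : Circle) ≠ q := fun h => by
  simpa [q] using congrArg (fun z : Circle => (z : ℂ).re) h

lemma l1 {u v : ℝ} (h : u ^ 2 + v ^ 2 = 1) (hu : 0 ≤ u) (hv : 0 ≤ v) : 1 ≤ u + v := by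
  nlinarith [mul_nonneg hu hv]

lemma l2 {u v : ℝ} (h : u ^ 2 + v ^ 2 = 1) : u ≤ 1 ∧ -1 ≤ u ∧ v ≤ 1 ∧ -1 ≤ v :=
  ⟨by nlinarith, by nlinarith, by nlinarith, by nlinarith⟩

lemma unl {a b c d : Circle} (h1 : (a, b) ∈ C) (h2 : (c, d) ∈ C) : 0 ≤ D a b c * D a b d := by
  have hb := l2 (sq1 b)
  have hd := l2 (sq1 d)
  have hb' := fun h1 h2 => l1 (u := |(b : ℂ).re|) (v := |(b : ℂ).im|) (by simpa using sq1 b) h1 h2
  have hb' := hb' (abs_nonneg _) (abs_nonneg _)
  rcases h1 with ⟨rfl, h1⟩ | ⟨rfl, h1, h1'⟩ <;> rcases h2 with ⟨rfl, h2⟩ | ⟨rfl, h2, h2'⟩ <;>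
    simp only [D, q, coe_mk, Circle.coe_one, Complex.sub_re, Complex.sub_im, Complex.one_re,
      Complex.one_im] at * <;> try simp
  · rcases le_or_gt 0 (b : ℂ).im with h | h
    · exact mul_nonneg (by linarith) (sub_nonneg.2 ((mul_nonpos_of_nonneg_of_nonpos h
        (by linarith)).trans (mul_nonneg_of_nonpos_of_nonpos (by linarith) h2')))
    · have h0 := h1.resolve_right h.not_ge
      rw [abs_of_nonneg h0, abs_of_neg h] at hb'
      exact mul_nonneg_of_nonpos_of_nonpos (by linarith) (by nlinarith)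
  · rw [abs_of_nonpos h1, abs_of_nonpos h1'] at hb'
    refine mul_nonneg_of_nonpos_of_nonpos (by linarith) ?_
    rcases le_or_gt 0 (d : ℂ).re with h | h
    · exact sub_nonpos.2 ((mul_nonpos_of_nonpos_of_nonneg h1 (by linarith)).trans
        (mul_nonneg (by linarith) h))
    · nlinarith [h2.resolve_left h.not_ge]

lemma lam : IsLamination Λ := by
  have hC : IsClosed C := by
    have a : Continuous fun p : Circle × Circle => (p.2 : ℂ).re := by fun_prop
    have b : Continuous fun p : Circle × Circle => (p.2 : ℂ).im := by fun_prop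
    exact ((isClosed_eq continuous_fst continuous_const).inter
      ((isClosed_le continuous_const a).union (isClosed_le continuous_const b))).union
      ((isClosed_eq continuous_fst continuous_const).inter
      ((isClosed_le a continuous_const).inter (isClosed_le b continuous_const)))
  refine ⟨⟨(1, q), q1, .inl (.inl ⟨rfl, .inl le_rfl⟩)⟩, fun p hp => ⟨hp.1, hp.1.symm, hp.2.symm⟩,
    fun p hp h => ⟨h, closure_minimal (fun p hp => hp.2)
      (hC.union (hC.preimage continuous_swap)) hp⟩, fun p hp q hq => ?_⟩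
  have e : ∀ a b c d, D b a c * D b a d = D a b c * D a b d := fun a b c d => by
    simp only [D, Complex.sub_re, Complex.sub_im]
    ring
  rcases hp.2 with h1 | h1 <;> rcases hq.2 with h2 | h2
  exacts [unl h1 h2, mul_comm (D _ _ q.2) _ ▸ unl h1 h2, e _ _ _ _ ▸ unl h1 h2,
    mul_comm (D _ _ q.2) _ ▸ e _ _ _ _ ▸ unl h1 h2]

def T : Set ℂ := {z | z.im < 0 ∧ z.re - z.im < 1 ∧ -z.re - z.im < 1}

lemma chord (p : Circle) {z : ℂ} (hz : z ∈ ball (0 : ℂ) 1) :
    ∃ (w : Circle) (t : ℝ), 1 ≤ t ∧ (w : ℂ) = p + t • (z - p) ∧ p ≠ w ∧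
      z ∈ segment ℝ (p : ℂ) w := by
  have h0 : z - p ≠ 0 := sub_ne_zero.2 fun e => by simp [e] at hz
  have h1 := norm_pos_iff.2 h0
  obtain ⟨t, ht, e⟩ := intermediate_value_Icc (a := 1) (b := 1 + 2 / ‖z - p‖)
    (le_add_of_nonneg_right (by positivity)) (f := fun t : ℝ => ‖(p : ℂ) + t • (z - p)‖)
    (by fun_prop) (show (1 : ℝ) ∈ Icc _ _ from ⟨by simpa using (mem_ball_zero_iff.1 hz).le, by
      have := norm_sub_norm_le ((1 + 2 / ‖z - p‖) • (z - p)) (-p)
      rw [norm_smul, Real.norm_of_nonneg (by positivity), add_mul, div_mul_cancel₀ _ h1.ne',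
        sub_neg_eq_add, add_comm _ (p : ℂ), norm_neg, p.norm_coe] at this
      linarith⟩)
  have t0 : 0 < t := one_pos.trans_le ht.1
  refine ⟨⟨_, mem_sphere_zero_iff_norm.2 e⟩, t, ht.1, rfl, fun h => ?_, ?_⟩
  · simpa [h0, t0.ne'] using congrArg (fun z : Circle => (z : ℂ)) h
  · rw [segment_eq_image']
    refine ⟨t⁻¹, ⟨by positivity, inv_le_one_of_one_le₀ ht.1⟩, ?_⟩
    change (p : ℂ) + t⁻¹ • (p + t • (z - p) - p) = z
    rw [add_sub_cancel_left, inv_smul_smul₀ t0.ne', add_sub_cancel]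

lemma out : outside Λ = T := by
  ext z
  simp only [outside, Set.mem_sdiff, mem_iUnion, not_exists]
  refine ⟨fun ⟨h1, h2⟩ => ?_, fun ⟨h1, h2, h3⟩ => ⟨?_, fun p hp h => ?_⟩⟩
  · obtain ⟨w, t, a1, a2, a3, a4⟩ := chord 1 h1
    obtain ⟨w', t', b1, b2, b3, b4⟩ := chord q h1
    have a5 : ¬ _ := fun h => h2 (1, w) ⟨a3, .inl (.inl ⟨rfl, h⟩)⟩ a4
    have b5 : ¬ _ := fun h => h2 (q, w') ⟨b3, .inl (.inr ⟨rfl, h⟩)⟩ b4
    have a6 := l2 (sq1 w)
    have b6 := l2 (sq1 w')
    simp only [a2, b2, q, not_or, not_le, not_and_or] at a5 b5 a6 b6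
    simp at a5 b5 a6 b6
    refine ⟨by nlinarith, by nlinarith, ?_⟩
    rcases b5 with h | h <;> nlinarith
  · rw [mem_ball_zero_iff, ← sq_lt_one_iff₀ (norm_nonneg _), Complex.sq_norm, Complex.normSq_apply]
    nlinarith
  have k : ∀ p ∈ C, z ∉ segment ℝ (p.1 : ℂ) p.2 := by
    rintro ⟨a, b⟩ hp ⟨u, v, hu, hv, e, rfl⟩
    have hb' := fun h1 h2 => l1 (u := |(b : ℂ).re|) (v := |(b : ℂ).im|) (by simpa using sq1 b) h1 h2
    have hb' := hb' (abs_nonneg _) (abs_nonneg _)
    rcases hp with ⟨rfl, h⟩ | ⟨rfl, h, h'⟩ <;> simp [q] at h1 h2 h3 h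
    · rcases le_or_gt 0 (b : ℂ).im with h' | h'
      · nlinarith
      · rw [abs_of_nonneg (h.resolve_right h'.not_ge), abs_of_neg h'] at hb'
        nlinarith
    · rw [abs_of_nonpos h, abs_of_nonpos h'] at hb'
      nlinarith
  exact hp.2.elim (k _ · h) (k _ · (segment_symm ℝ (p.1 : ℂ) _ ▸ h))

lemma full : VeryFull Λ := by
  rw [VeryFull, out]
  intro z hz
  have hT : Convex ℝ T := by
    rintro x ⟨x1, x2, x3⟩ y ⟨y1, y2, y3⟩ u v hu hv e
    obtain rfl : v = 1 - u := by linarith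
    rcases hu.eq_or_lt with rfl | hu
    · simpa using ⟨y1, y2, y3⟩
    refine ⟨?_, ?_, ?_⟩ <;> simp <;> nlinarith
  have qr : q ≠ r := fun h => by simpa [q, r] using congrArg (fun z : Circle => (z : ℂ).re) h
  have r1 : 1 ≠ r := fun h => by
    have := congrArg (fun z : Circle => (z : ℂ).re) h
    norm_num [r] at this
  classical
  refine ⟨{1, q, r}, by rw [Finset.card_eq_three.2 ⟨_, _, _, q1, r1, qr, rfl⟩], ?_⟩
  rw [hT.isPreconnected.connectedComponentIn hz]
  refine Subset.antisymm (closure_minimal (fun z hz => mem_convexHull_of_exists_fintype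
    ![(1 + z.re + z.im) / 2, -z.im, (1 - z.re + z.im) / 2] ![1, q, r] (fun i => ?_) ?_ (fun i => ?_)
    ?_) (((Finset.finite_toSet _).image _).isClosed_convexHull ℝ))
    (convexHull_min ?_ hT.closure)
  · fin_cases i <;> simp <;> linarith [hz.1, hz.2.1, hz.2.2]
  · simp [Fin.sum_univ_succ]; ring
  · fin_cases i
    exacts [⟨1, by simp, rfl⟩, ⟨q, by simp, rfl⟩, ⟨r, by simp, rfl⟩]
  · apply Complex.ext <;> simp [Fin.sum_univ_succ, q, r]; ring
  · rintro _ ⟨v, hv, rfl⟩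
    refine mem_closure_of_tendsto (b := 𝓝[>] (0 : ℝ)) (f := fun t => (v : ℂ) + t • (⟨0, -1 / 2⟩ - v))
      (tendsto_nhdsWithin_of_tendsto_nhds (Continuous.tendsto' (by fun_prop) _ _ (by simp))) ?_
    filter_upwards [Ioo_mem_nhdsGT one_pos] with t ⟨t0, t1⟩
    simp only [Finset.coe_insert, Finset.coe_singleton, mem_insert_iff, mem_singleton_iff] at hv
    rcases hv with rfl | rfl | rfl <;> refine ⟨?_, ?_, ?_⟩ <;> simp [q, r] <;> linarith

noncomputable def bump (f : ℝ → ℝ) (hf : LipschitzWith 1 f) : ℝ ≃o ℝ :=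
  have h : ∀ x y, x ≤ y → (y - x) / 2 ≤ y + f y / 2 - (x + f x / 2) := fun x y h => by
    have := hf.dist_le_mul x y
    rw [Real.dist_eq, Real.dist_eq, abs_sub_comm x, abs_of_nonneg (sub_nonneg.2 h), NNReal.coe_one] at this
    linarith [le_of_abs_le this]
  StrictMono.orderIsoOfSurjective (fun x => x + f x / 2)
    (fun x y e => by linarith [h x y e.le]) (Continuous.surjective
      (by have := hf.continuous; fun_prop)
      (tendsto_atTop_mono' _ (f₁ := fun x => x / 2 + f 0 / 2)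
        ((eventually_ge_atTop 0).mono fun x e => by linarith [h 0 x e])
        (tendsto_atTop_add_const_right _ _ (tendsto_id.atTop_div_const two_pos)))
      (tendsto_atBot_mono' _ (f₁ := fun x => x / 2 + f 0 / 2)
        ((eventually_le_atBot 0).mono fun x e => by linarith [h x 0 e])
        (tendsto_atBot_add_const_right _ _ (tendsto_id.atBot_div_const two_pos))))

lemma lp (c : ℝ) : LipschitzWith 1 fun x : ℝ => max (min (x - 1) (c - x)) 0 := by
  simpa using (((LipschitzWith.id (α := ℝ)).sub (.const 1)).min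
    ((LipschitzWith.const c).sub .id)).max_const 0

noncomputable def t : ℝ ≃o ℝ := bump (fun x => max x 0) (LipschitzWith.id.max_const 0)
noncomputable def a (c : ℝ) : ℝ ≃o ℝ := bump _ (lp c)

lemma ta (x : ℝ) : t x = x + max x 0 / 2 := rfl
lemma aa (c x : ℝ) : a c x = x + max (min (x - 1) (c - x)) 0 / 2 := rfl

lemma comm {g h : ℝ ≃o ℝ} {m : ℝ} (hg : ∀ x ≤ m, g x = x) (hh : ∀ x, m ≤ x → h x = x) :
    g * h = h * g := by
  ext x
  change g (h x) = h (g x)
  rcases le_total x m with e | e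
  · rw [hg x e, hg _ (hh m le_rfl ▸ h.monotone e)]
  · rw [hh x e, hh _ (hg m le_rfl ▸ g.monotone e)]

/-- A finitely generated group of orientation-preserving homeomorphisms of the circle preserving a
very full lamination, which has a gap, and which is not residually finite. -/
theorem result :
    ∃ (G : Subgroup (Circle ≃ₜ Circle)) (Λ : Set (Circle × Circle)), G.FG ∧
      (∀ g ∈ G, ∀ a b c, 0 < D a b c → 0 < D (g a) (g b) (g c)) ∧
      IsLamination Λ ∧ VeryFull Λ ∧ (outside Λ).Nonempty ∧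
      (∀ g ∈ G, Prod.map g g '' Λ = Λ) ∧
      ∃ g : G, g ≠ 1 ∧ ∀ (Q : Type) [Group Q] [Finite Q] (φ : G →* Q), φ g = 1 := by
  let H := Subgroup.closure {t, a (3 / 2), a (5 / 4)}
  have hH : ∀ h ∈ H, ∀ x ≤ 0, h x = x := fun h hh => by
    induction hh using Subgroup.closure_induction with
    | mem h hh =>
      intro x hx
      rcases hh with rfl | rfl | rfl <;> simp [ta, aa, hx] <;> exact .inl (by linarith)
    | one => exact fun _ _ => rfl
    | mul g h _ _ h1 h2 => exact fun x hx => (congrArg g (h2 x hx)).trans (h1 x hx)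
    | inv h _ h1 => exact fun x hx => h.injective ((h.apply_symm_apply x).trans (h1 x hx).symm)
  have inv : ∀ g ∈ H.map Ψ, MapsTo (Prod.map g g) Λ Λ := by
    rintro _ ⟨h, hh, rfl⟩
    have k : ∀ p ∈ C, Prod.map (Ψ h) (Ψ h) p ∈ C := by
      rintro ⟨a, b⟩ hp
      by_cases hb : (b : ℂ).im ≤ 0
      · rcases id hp with ⟨rfl, -⟩ | ⟨rfl, -⟩ <;>
          rwa [Prod.map_apply, fix (hH h hh) hb, fix (hH h hh) (by simp [q])]
      rcases hp with ⟨rfl, -⟩ | ⟨-, -, e⟩
      · refine .inl ⟨fix (hH h hh) (by simp), .inr (le_of_not_ge fun e => hb ?_)⟩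
        exact (Ψ h).injective (fix (hH h hh) e) ▸ e
      · exact (hb e).elim
    exact fun p hp => ⟨(Ψ h).injective.ne hp.1, hp.2.imp (k _) (k _)⟩
  let T : H := ⟨t, Subgroup.subset_closure (by simp)⟩
  let A : H := ⟨a (3 / 2), Subgroup.subset_closure (by simp)⟩
  let B : H := ⟨a (5 / 4), Subgroup.subset_closure (by simp)⟩
  refine ⟨H.map Ψ, Λ, ?_, ?_, lam, full, ⟨⟨0, -1 / 2⟩, by rw [out]; norm_num [Wreath.T]⟩,
    fun g hg => (inv g hg).image_subset.antisymm fun p hp =>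
      ⟨_, inv _ (inv_mem hg) hp, by ext1 <;> exact g.apply_symm_apply _⟩,
    Ψ.subgroupMap H (A * B * (B * A)⁻¹), fun e => ?_, fun Q _ _ φ => ?_⟩
  · rw [MonoidHom.map_closure]
    exact (Subgroup.fg_iff _).2 ⟨_, rfl, (toFinite _).image _⟩
  · rintro _ ⟨h, -, rfl⟩
    exact ori h
  · rw [map_mul, map_inv, mul_inv_eq_one] at e
    have := congrArg (fun g : H.map Ψ => g.1 (σ (9 / 8 : ℝ))) e
    change Ψ _ _ = Ψ _ _ at this
    rw [Ψ2, Ψ2, σ.injective.eq_iff, coe_eq_coe] at this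
    change a _ (a _ _) = a _ (a _ _) at this
    norm_num [aa, max_def, min_def] at this
  · obtain ⟨n, hn⟩ := Nat.exists_eq_succ_of_ne_zero (Nat.card_pos (α := Q)).ne'
    have h1 : ∀ n, 1 ≤ (t ^ n) 1 := fun n => by
      induction n with
      | zero => exact le_rfl
      | succ n ih =>
        rw [pow_succ']
        exact ih.trans (le_add_of_nonneg_right (by positivity))
    have h2 : T ^ (n + 1) * A * (T ^ (n + 1))⁻¹ * B = B * (T ^ (n + 1) * A * (T ^ (n + 1))⁻¹) := by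
      refine Subtype.ext (comm (m := 3 / 2) (fun x hx => ?_) fun x hx => ?_)
      · obtain ⟨y, rfl⟩ := (t ^ (n + 1)).surjective x
        have : y ≤ 1 := (t ^ (n + 1)).le_iff_le.1 (hx.trans (by
          rw [pow_succ']
          exact le_trans (by norm_num [ta]) (t.monotone (h1 n))))
        change (t ^ (n + 1)) (a _ ((t ^ (n + 1)).symm _)) = _
        simp [aa, max_eq_right (min_le_of_left_le (sub_nonpos.2 this))]
      · simp only [B, aa, add_eq_left, div_eq_zero_iff, max_eq_right_iff]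
        exact .inl (min_le_of_right_le (by linarith))
    have h3 := congrArg (φ.comp (Ψ.subgroupMap H)) h2
    simp only [map_mul, map_inv, map_pow, show n + 1 = Nat.card Q from hn.symm, pow_card_eq_one',
      one_mul, inv_one, mul_one, MonoidHom.comp_apply] at h3
    simp [h3]

end Pool.Agent.Results.MP_939d63_gt.Wreath
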